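import Pool.Agent.H14R2.LL.Defs
import Pool.Agent.H14R2.LL.S.EXPOBP

/-! Task BPARTH: a random letter is good -/

namespace LL14
open RC14 RC852 TE852 Finset Equiv

namespace BPARTHx

theorem card_pairs {X Y : Type*} [Fintype X] [Fintype Y] (R : X → Y → Prop) :
    Nat.card {p : X × Y // R p.1 p.2} = ∑ x, Nat.card {y // R x y} := by
  classical
  simp_rw [Nat.card_eq_fintype_card, Fintype.card_subtype, Finset.card_filter]
  rw [Fintype.sum_prod_type]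

/-- Markov's inequality -/
theorem markov {X : Type*} [Fintype X] (N : X → ℝ) (hN : ∀ x, 0 ≤ N x) (t P : ℝ) (ht : 0 < t)
    (hP : ∑ x, N x ≤ P * t) : (Nat.card {x // ¬ N x ≤ t} : ℝ) ≤ P := by
  classical
  rw [Nat.card_eq_fintype_card, Fintype.card_subtype]
  have h1 : ((univ.filter fun x => ¬ N x ≤ t).card : ℝ) * t ≤ ∑ x, N x := by
    calc ((univ.filter fun x => ¬ N x ≤ t).card : ℝ) * t =
        ∑ x ∈ univ.filter (fun x => ¬ N x ≤ t), t := by
          rw [Finset.sum_const, nsmul_eq_mul]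
      _ ≤ ∑ x ∈ univ.filter (fun x => ¬ N x ≤ t), N x := by
          refine Finset.sum_le_sum fun x hx => ?_
          exact (not_le.mp (Finset.mem_filter.mp hx).2).le
      _ ≤ ∑ x, N x := Finset.sum_le_sum_of_subset_of_nonneg (Finset.filter_subset _ _)
          fun x _ _ => hN x
  exact le_of_mul_le_mul_right (h1.trans hP) ht

theorem card_eq {X : Type*} [Fintype X] (P : X → Prop) [DecidablePred P] :
    Nat.card {x // P x} = (univ.filter P).card := by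
  rw [Nat.card_eq_fintype_card, Fintype.card_subtype]

/-- union bound -/
theorem union_bound' {X : Type*} [Fintype X] (Q : ℕ → X → Prop) (m : ℕ) (c : ℝ)
    (h : ∀ j, 1 ≤ j → j ≤ m → (Nat.card {x // ¬ Q j x} : ℝ) ≤ c) (P : X → Prop)
    (hP : ∀ x, P x → ∃ j, 1 ≤ j ∧ j ≤ m ∧ ¬ Q j x) :
    (Nat.card {x // P x} : ℝ) ≤ m * c := by
  classical
  have h1 : univ.filter P ⊆
      (Finset.Icc 1 m).biUnion (fun j => univ.filter (fun x => ¬ Q j x)) := by
    intro x hx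
    obtain ⟨j, hj1, hj2, hj3⟩ := hP x (Finset.mem_filter.mp hx).2
    exact Finset.mem_biUnion.mpr ⟨j, Finset.mem_Icc.mpr ⟨hj1, hj2⟩,
      Finset.mem_filter.mpr ⟨Finset.mem_univ _, hj3⟩⟩
  have h2 : ((univ.filter P).card : ℝ) ≤
      ∑ j ∈ Finset.Icc 1 m, ((univ.filter (fun x => ¬ Q j x)).card : ℝ) := by
    exact_mod_cast (Finset.card_le_card h1).trans Finset.card_biUnion_le
  rw [card_eq P]
  refine h2.trans ?_
  calc ∑ j ∈ Finset.Icc 1 m, ((univ.filter (fun x => ¬ Q j x)).card : ℝ) ≤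
      ∑ _j ∈ Finset.Icc 1 m, c := by
        refine Finset.sum_le_sum fun j hj => ?_
        have h3 := h j (Finset.mem_Icc.mp hj).1 (Finset.mem_Icc.mp hj).2
        rw [card_eq (fun x => ¬ Q j x)] at h3
        exact h3
    _ = m * c := by
      rw [Finset.sum_const, Nat.card_Icc, nsmul_eq_mul, Nat.add_sub_cancel]

/-- the numerical estimate: first term of `EXPOBP` -/
theorem numeric1 (N y H : ℝ) (j J K' : ℕ) (hy : y ^ 32 = N) (hy2 : 4 ≤ y) (hHy : H ≤ y)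
    (hH : 0 < H) (hK : N / (32 * H) ≤ K') (hJ : (2 * J : ℝ) ≤ N) :
    (J : ℝ) * N / (K' : ℝ) ^ (4 * j + 3) ≤ (1 / N) ^ (3 * j) := by
  have hy0 : 0 < y := by linarith
  have hN0 : 0 < N := by rw [← hy]; positivity
  have hK2 : y ^ 31 / 32 ≤ K' := by
    refine le_trans ?_ hK
    rw [← hy, div_le_div_iff₀ (by norm_num) (by positivity)]
    calc y ^ 31 * (32 * H) ≤ y ^ 31 * (32 * y) := by gcongr
      _ = y ^ 32 * 32 := by ring
  have hK0 : (0 : ℝ) < K' := lt_of_lt_of_le (by positivity) hK2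
  have h3 : N * N ≤ (K' : ℝ) ^ 3 := by
    refine le_trans ?_ (pow_le_pow_left₀ (by positivity) hK2 3)
    have h5 : (32 ^ 3 : ℝ) ≤ y ^ 29 := by
      calc (32 ^ 3 : ℝ) ≤ 4 ^ 29 := by norm_num
        _ ≤ y ^ 29 := pow_le_pow_left₀ (by norm_num) hy2 29
    rw [← hy]
    calc y ^ 32 * y ^ 32 = (32 ^ 3 : ℝ) * y ^ 64 / 32 ^ 3 := by ring
      _ ≤ y ^ 29 * y ^ 64 / 32 ^ 3 := by gcongr
      _ = (y ^ 31 / 32) ^ 3 := by ring
  have h4 : N ^ 3 ≤ (K' : ℝ) ^ 4 := by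
    refine le_trans ?_ (pow_le_pow_left₀ (by positivity) hK2 4)
    have h5 : (32 ^ 4 : ℝ) ≤ y ^ 28 := by
      calc (32 ^ 4 : ℝ) ≤ 4 ^ 28 := by norm_num
        _ ≤ y ^ 28 := pow_le_pow_left₀ (by norm_num) hy2 28
    rw [← hy]
    calc (y ^ 32) ^ 3 = (32 ^ 4 : ℝ) * y ^ 96 / 32 ^ 4 := by ring
      _ ≤ y ^ 28 * y ^ 96 / 32 ^ 4 := by gcongr
      _ = (y ^ 31 / 32) ^ 4 := by ring
  have hJN : (J : ℝ) ≤ N := by
    have : (0 : ℝ) ≤ J := Nat.cast_nonneg _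
    linarith
  rw [one_div, inv_pow, div_le_iff₀ (by positivity), inv_mul_eq_div, le_div_iff₀ (by positivity)]
  calc (J : ℝ) * N * N ^ (3 * j) ≤ N * N * (N ^ 3) ^ j := by
        rw [← pow_mul]
        gcongr
    _ ≤ (K' : ℝ) ^ 3 * ((K' : ℝ) ^ 4) ^ j := by gcongr
    _ = (K' : ℝ) ^ (4 * j + 3) := by
        rw [← pow_mul, pow_add]
        ring

/-- the first term with powers of `G` -/
theorem term1 (G n j J K' : ℕ) (hG : 4 ≤ G) (hn : G ^ 256 ≤ n)
    (hK : (n : ℝ) / (32 * (G : ℝ) ^ 8) ≤ K') (hJ : 2 * J ≤ n) :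
    (J : ℝ) * n / (K' : ℝ) ^ (4 * j + 3) ≤ (1 / (G : ℝ)) ^ (34 * j) := by
  have hG' : (4 : ℝ) ≤ G := by exact_mod_cast hG
  have hG0 : (0 : ℝ) < G := by linarith
  have hn' : (G : ℝ) ^ 256 ≤ n := by exact_mod_cast hn
  have hn0 : (0 : ℝ) < n := lt_of_lt_of_le (by positivity) hn'
  obtain ⟨y, hyd⟩ : ∃ y : ℝ, y = (n : ℝ) ^ ((1 : ℝ) / 32) := ⟨_, rfl⟩
  have hy32 : y ^ 32 = n := by
    rw [hyd, ← Real.rpow_natCast, ← Real.rpow_mul hn0.le]
    norm_num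
  have hGy : (G : ℝ) ^ 8 ≤ y := by
    calc (G : ℝ) ^ 8 = ((G : ℝ) ^ 256) ^ ((1 : ℝ) / 32) := by
          rw [← Real.rpow_natCast, ← Real.rpow_natCast, ← Real.rpow_mul hG0.le]
          norm_num
      _ ≤ (n : ℝ) ^ ((1 : ℝ) / 32) := Real.rpow_le_rpow (by positivity) hn' (by norm_num)
      _ = y := hyd.symm
  have h4 : (4 : ℝ) ≤ y := by
    refine le_trans ?_ hGy
    calc (4 : ℝ) ≤ G := hG'
      _ = (G : ℝ) ^ 1 := (pow_one _).symm
      _ ≤ (G : ℝ) ^ 8 := pow_le_pow_right₀ (by linarith) (by norm_num)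
  refine (numeric1 n y ((G : ℝ) ^ 8) j J K' hy32 h4 hGy (by positivity) hK
    (by exact_mod_cast hJ)).trans ?_
  have h5 : 1 / (n : ℝ) ≤ (1 / (G : ℝ)) ^ 256 := by
    rw [one_div_pow]
    exact one_div_le_one_div_of_le (by positivity) hn'
  calc (1 / (n : ℝ)) ^ (3 * j) ≤ ((1 / (G : ℝ)) ^ 256) ^ (3 * j) :=
        pow_le_pow_left₀ (by positivity) h5 _
    _ = (1 / (G : ℝ)) ^ (256 * (3 * j)) := (pow_mul _ _ _).symm
    _ ≤ (1 / (G : ℝ)) ^ (34 * j) := by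
        apply pow_le_pow_of_le_one (by positivity)
        · rw [div_le_one hG0]
          linarith
        · omega

/-- the second term with powers of `G` -/
theorem term2 (G n j r L F : ℕ) (hG : 32 ≤ G) (hF : (n : ℝ) / (G : ℝ) ^ 8 ≤ F) (hF0 : 0 < F)
    (hr : 1 ≤ r) (hrj : r ≤ j) (hL : j ≤ r * L) (hL2 : L ≤ 2 * G ^ 8) :
    (2 * n / F : ℝ) ^ r * (2 ^ ((r + 1) * (64 * L)) *
      (((64 * L : ℕ) : ℝ) * (1 / (G : ℝ) ^ 24)) ^ (r * (64 * L / 4 + 1))) ≤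
      (1 / (G : ℝ)) ^ (34 * j) := by
  have hG' : (32 : ℝ) ≤ G := by exact_mod_cast hG
  have hG0 : (0 : ℝ) < G := by linarith
  have hG1 : (1 : ℝ) ≤ G := by linarith
  have hF' : (0 : ℝ) < F := by exact_mod_cast hF0
  have a1 : (2 * n / F : ℝ) ^ r ≤ ((G : ℝ) ^ 9) ^ j := by
    have h1 : (2 * n / F : ℝ) ≤ (G : ℝ) ^ 9 := by
      rw [div_le_iff₀ hF']
      have h2 : (n : ℝ) ≤ F * (G : ℝ) ^ 8 := (div_le_iff₀ (by positivity)).1 hF
      calc (2 : ℝ) * n ≤ 2 * (F * (G : ℝ) ^ 8) := by linarith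
        _ ≤ G * (F * (G : ℝ) ^ 8) := by
          apply mul_le_mul_of_nonneg_right _ (by positivity)
          linarith
        _ = (G : ℝ) ^ 9 * F := by ring
    calc (2 * n / F : ℝ) ^ r ≤ ((G : ℝ) ^ 9) ^ r := pow_le_pow_left₀ (by positivity) h1 r
      _ ≤ ((G : ℝ) ^ 9) ^ j := pow_le_pow_right₀ (one_le_pow₀ hG1) hrj
  obtain ⟨x, hx⟩ : ∃ x : ℝ, x = ((64 * L : ℕ) : ℝ) * (1 / (G : ℝ) ^ 24) := ⟨_, rfl⟩
  rw [← hx]
  have hx0 : 0 ≤ x := by rw [hx]; positivity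
  have hL2' : (L : ℝ) ≤ 2 * (G : ℝ) ^ 8 := by exact_mod_cast hL2
  have hG3 : (32768 : ℝ) ≤ (G : ℝ) ^ 3 := by
    calc (32768 : ℝ) = 32 ^ 3 := by norm_num
      _ ≤ (G : ℝ) ^ 3 := pow_le_pow_left₀ (by norm_num) hG' 3
  have hxb : 256 * x ≤ (1 / (G : ℝ)) ^ 13 := by
    rw [hx, one_div_pow, le_div_iff₀ (by positivity)]
    push_cast
    have h1 : (256 : ℝ) * (64 * L * (1 / (G : ℝ) ^ 24)) * (G : ℝ) ^ 13 =
        (16384 * L) / (G : ℝ) ^ 11 := by
      field_simp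
      ring
    rw [h1, div_le_one (by positivity)]
    calc (16384 : ℝ) * L ≤ 16384 * (2 * (G : ℝ) ^ 8) := by gcongr
      _ = 32768 * (G : ℝ) ^ 8 := by ring
      _ ≤ (G : ℝ) ^ 3 * (G : ℝ) ^ 8 := by gcongr
      _ = (G : ℝ) ^ 11 := by ring
  have he1 : (1 / (G : ℝ)) ≤ 1 := by
    rw [div_le_one hG0]
    exact hG1
  have hx1 : x ≤ 1 := by
    have h2 : (1 / (G : ℝ)) ^ 13 ≤ 1 := pow_le_one₀ (by positivity) he1
    linarith
  obtain ⟨Q, hQ⟩ : ∃ Q : ℕ, Q = r * L := ⟨_, rfl⟩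
  have a2 : (2 : ℝ) ^ ((r + 1) * (64 * L)) * x ^ (r * (64 * L / 4 + 1)) ≤
      ((1 / (G : ℝ)) ^ 13) ^ (16 * j) := by
    have e1 : (2 : ℝ) ^ ((r + 1) * (64 * L)) ≤ 256 ^ (16 * Q) := by
      have : (256 : ℝ) = 2 ^ 8 := by norm_num
      rw [this, ← pow_mul]
      apply pow_le_pow_right₀ (by norm_num)
      rw [hQ]
      have : (r + 1) * (64 * L) ≤ (2 * r) * (64 * L) := by gcongr; omega
      calc (r + 1) * (64 * L) ≤ (2 * r) * (64 * L) := this
        _ = 8 * (16 * (r * L)) := by ring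
    have e2 : x ^ (r * (64 * L / 4 + 1)) ≤ x ^ (16 * Q) := by
      apply pow_le_pow_of_le_one hx0 hx1
      rw [hQ]
      have : 16 * L ≤ 64 * L / 4 + 1 := by omega
      calc 16 * (r * L) = r * (16 * L) := by ring
        _ ≤ _ := Nat.mul_le_mul_left r this
    calc (2 : ℝ) ^ ((r + 1) * (64 * L)) * x ^ (r * (64 * L / 4 + 1))
        ≤ 256 ^ (16 * Q) * x ^ (16 * Q) := by gcongr
      _ = (256 * x) ^ (16 * Q) := by rw [mul_pow]
      _ ≤ ((1 / (G : ℝ)) ^ 13) ^ (16 * Q) := pow_le_pow_left₀ (by positivity) hxb _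
      _ ≤ ((1 / (G : ℝ)) ^ 13) ^ (16 * j) := by
        apply pow_le_pow_of_le_one (by positivity) (pow_le_one₀ (by positivity) he1)
        rw [hQ]
        omega
  have a3 : ((G : ℝ) ^ 9) ^ j * ((1 / (G : ℝ)) ^ 13) ^ (16 * j) ≤ (1 / (G : ℝ)) ^ (34 * j) := by
    rw [pow_mul _ 16 j, ← mul_pow, pow_mul _ 34 j]
    apply pow_le_pow_left₀ (by positivity)
    have h2 : (G : ℝ) ^ 9 * ((1 / (G : ℝ)) ^ 13) ^ 16 = (1 / (G : ℝ)) ^ 199 := by
      field_simp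
    rw [h2]
    exact pow_le_pow_of_le_one (by positivity) he1 (by norm_num)
  calc _ ≤ ((G : ℝ) ^ 9) ^ j * ((1 / (G : ℝ)) ^ 13) ^ (16 * j) := by gcongr
    _ ≤ _ := a3

end BPARTHx

open BPARTHx in
/-- a random letter `b` is good with probability `1 - 1/n` -/
theorem BPARTH : ∃ G0 : ℕ, ∀ G : ℕ, G0 ≤ G → ∀ n r : ℕ, 1 ≤ r → r * G ^ 256 ≤ n →
    Real.log n ≤ r → ∀ (K : Type) [Fintype K] [Nonempty K] (g : K → Perm (Fin n)),
    PMix r (1 / (G : ℝ) ^ 24) g →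
    (Nat.card {b : Fin 1 → Alt n // ¬ GoodH G r g (cb b)} : ℝ) ≤
      1 / (n : ℝ) * (Fintype.card (Alt n) : ℝ) ^ 1 := by
  classical
  refine ⟨32, ?_⟩
  intro G hG n r hr hn hlog K _ _ g hg
  have hG' : (32 : ℝ) ≤ G := by exact_mod_cast hG
  have hG0 : (0 : ℝ) < G := by linarith
  have hG1 : (1 : ℝ) ≤ G := by linarith
  have hr' : (1 : ℝ) ≤ r := by exact_mod_cast hr
  have hn' : (r : ℝ) * (G : ℝ) ^ 256 ≤ n := by exact_mod_cast hn
  have hGn : G ^ 256 ≤ n := le_trans (Nat.le_mul_of_pos_left _ (by omega)) hn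
  have hn0 : (0 : ℝ) < n := lt_of_lt_of_le (by positivity) hn'
  have hn1 : 1 ≤ n := by exact_mod_cast hn0
  have he0 : (0 : ℝ) < 1 / (G : ℝ) := by positivity
  have he1 : (1 / (G : ℝ)) ≤ 1 := by
    rw [div_le_one hG0]
    exact hG1
  -- `F`
  obtain ⟨F, hFd⟩ : ∃ F : ℕ, F = FH G n := ⟨_, rfl⟩
  have hGp : 0 < G ^ 8 := by positivity
  have hF0 : (n : ℝ) / (G : ℝ) ^ 8 ≤ F := by
    rw [hFd, div_le_iff₀ (by positivity)]
    unfold FH
    have h1 : n < (n / G ^ 8 + 1) * G ^ 8 := by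
      have := Nat.lt_mul_div_succ n hGp
      rw [mul_comm]
      exact this
    exact_mod_cast h1.le
  have hFpos : 0 < F := by rw [hFd]; exact Nat.succ_pos _
  -- `X = r G^16 * 32768 ≤ F`
  have hbig : 32768 * (r * G ^ 16) ≤ F := by
    rw [hFd]
    unfold FH
    have h1 : 32768 * (r * G ^ 16) ≤ n / G ^ 8 := by
      rw [Nat.le_div_iff_mul_le hGp]
      calc 32768 * (r * G ^ 16) * G ^ 8 = r * (32 ^ 3 * G ^ 24) := by ring
        _ ≤ r * (G ^ 3 * G ^ 24) := by gcongr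
        _ = r * G ^ 27 := by rw [← pow_add]
        _ ≤ r * G ^ 256 := by
            apply Nat.mul_le_mul_left
            exact Nat.pow_le_pow_right (by omega) (by norm_num)
        _ ≤ n := hn
    omega
  have hFn : F ≤ n := by
    rw [hFd]
    unfold FH
    have h1 : n / G ^ 8 ≤ n / 2 := Nat.div_le_div_left (by
      calc 2 ≤ G := by omega
        _ = G ^ 1 := (pow_one _).symm
        _ ≤ G ^ 8 := Nat.pow_le_pow_right (by omega) (by norm_num)) (by norm_num)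
    have h2 : 2 ≤ n := by
      calc 2 ≤ G := by omega
        _ = G ^ 1 := (pow_one _).symm
        _ ≤ G ^ 256 := Nat.pow_le_pow_right (by omega) (by norm_num)
        _ ≤ n := hGn
    omega
  have hG16 : 1 ≤ G ^ 16 := Nat.one_le_pow _ _ (by omega)
  have hrr : r ≤ r * G ^ 16 := Nat.le_mul_of_pos_right _ (by omega)
  have hrF : 2 * r ≤ F := by omega
  obtain ⟨K', hKd⟩ : ∃ K' : ℕ, K' = F / 16 := ⟨_, rfl⟩
  have hK'pos : 1 ≤ K' := by omega
  have hK2 : (n : ℝ) / (32 * (G : ℝ) ^ 8) ≤ K' := by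
    have h1 : (n : ℝ) / (32 * (G : ℝ) ^ 8) = n / (G : ℝ) ^ 8 / 32 := by
      rw [div_div]
      congr 1
      ring
    have h2 : F ≤ 32 * K' := by omega
    have h3 : (F : ℝ) ≤ 32 * K' := by exact_mod_cast h2
    rw [h1]
    linarith
  have hA0 : (0 : ℝ) < (Fintype.card (Alt n) : ℝ) := by
    have : 0 < Fintype.card (Alt n) := Fintype.card_pos
    exact_mod_cast this
  have hC0 : (0 : ℝ) < (Fintype.card (K × (Fin 1 × Bool)) : ℝ) := by
    have : 0 < Fintype.card (K × (Fin 1 × Bool)) := Fintype.card_pos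
    exact_mod_cast this
  -- one level
  have hlevel : ∀ j, 1 ≤ j → j ≤ r * G ^ 8 →
      (Nat.card {b : Fin 1 → Alt n // ¬ (r ≤ j → (Nat.card {w : Fin (2 * LL r j) →
        K × (Fin 1 × Bool) // 2 * F ≤ nfix (bwd g (cb b) w)} : ℝ) ≤
      (1 / (G : ℝ)) ^ (2 * j) * (Fintype.card (K × (Fin 1 × Bool)) : ℝ) ^ (2 * LL r j))} : ℝ) ≤
      2 * (1 / (G : ℝ)) ^ (32 * r) * (Fintype.card (Alt n) : ℝ) ^ 1 := by
    intro j hj1 hj2
    by_cases hrj : r ≤ j
    swap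
    · have : IsEmpty {b : Fin 1 → Alt n // ¬ (r ≤ j → (Nat.card {w : Fin (2 * LL r j) →
        K × (Fin 1 × Bool) // 2 * F ≤ nfix (bwd g (cb b) w)} : ℝ) ≤
      (1 / (G : ℝ)) ^ (2 * j) * (Fintype.card (K × (Fin 1 × Bool)) : ℝ) ^ (2 * LL r j))} :=
        ⟨fun b => b.2 fun h => absurd h hrj⟩
      rw [Nat.card_of_isEmpty, Nat.cast_zero]
      positivity
    obtain ⟨L, hLd⟩ : ∃ L : ℕ, L = j / r + 1 := ⟨_, rfl⟩
    have hJL : 2 * LL r j = 64 * L := by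
      unfold LL
      rw [hLd]
      ring
    have hLj : j ≤ r * L := by
      rw [hLd]
      have := Nat.lt_mul_div_succ j (by omega : 0 < r)
      omega
    have hL1 : 1 ≤ L := by rw [hLd]; exact Nat.le_add_left 1 _
    have hL2 : L ≤ 2 * G ^ 8 := by
      have h1 : j / r ≤ G ^ 8 := by
        calc j / r ≤ (r * G ^ 8) / r := Nat.div_le_div_right hj2
          _ = G ^ 8 := Nat.mul_div_cancel_left _ (by omega)
      omega
    have hF : 4 * ((4 * j + 3) * (3 * (64 * L) + 1) + K') ≤ F := by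
      have h5 : 8 * ((4 * j + 3) * (3 * (64 * L) + 1)) ≤ F := by
        refine le_trans ?_ hbig
        calc 8 * ((4 * j + 3) * (3 * (64 * L) + 1)) ≤ 8 * ((7 * j) * (4 * (64 * L))) := by
              gcongr
              · omega
              · omega
          _ = 14336 * (j * L) := by ring
          _ ≤ 14336 * ((r * G ^ 8) * (2 * G ^ 8)) := by gcongr
          _ = 28672 * (r * G ^ 16) := by ring
          _ ≤ 32768 * (r * G ^ 16) := by gcongr; norm_num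
      omega
    have hJn : 2 * (64 * L) ≤ n := by
      have h6 : L ≤ 2 * G ^ 16 := hL2.trans (by
        apply Nat.mul_le_mul_left
        exact Nat.pow_le_pow_right (by omega) (by norm_num))
      have h7 : G ^ 16 ≤ r * G ^ 16 := Nat.le_mul_of_pos_left _ (by omega)
      omega
    have hJh : ((64 * L : ℕ) : ℝ) * (1 / (G : ℝ) ^ 24) ≤ 1 := by
      rw [mul_one_div, div_le_one (by positivity)]
      have h6 : 64 * L ≤ G ^ 24 := by
        calc 64 * L ≤ 64 * (2 * G ^ 8) := by gcongr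
          _ = 128 * G ^ 8 := by ring
          _ ≤ 32 ^ 3 * G ^ 8 := by gcongr; norm_num
          _ ≤ G ^ 3 * G ^ 8 := by gcongr
          _ = G ^ 11 := by rw [← pow_add]
          _ ≤ G ^ 24 := Nat.pow_le_pow_right (by omega) (by norm_num)
      exact_mod_cast h6
    have hE := EXPOBP n 1 (64 * L) r F (4 * j + 3) K' le_rfl (by omega) hr hrF hFn hK'pos
      ⟨2 * j + 1, by ring⟩ (1 / (G : ℝ) ^ 24) (by positivity) hJh g hg hF
    have hnum1 := term1 G n j (64 * L) K' (by omega) hGn hK2 hJn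
    have hnum2 := term2 G n j r L F hG hF0 hFpos hr hrj hLj hL2
    have hpairs := card_pairs (X := Fin 1 → Alt n)
      (Y := Fin (64 * L) → K × (Fin 1 × Bool))
      (fun b w => 2 * F ≤ nfix (bwd g (cb b) w))
    have hE' : (Nat.card {p : (Fin 1 → Alt n) × (Fin (64 * L) → K × (Fin 1 × Bool)) //
        2 * F ≤ nfix (bwd g (cb p.1) p.2)} : ℝ) ≤ 2 * (1 / (G : ℝ)) ^ (34 * j) *
        ((Fintype.card (Alt n) : ℝ) ^ 1 *
          (Fintype.card (K × (Fin 1 × Bool)) : ℝ) ^ (64 * L)) := by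
      refine le_trans hE (mul_le_mul_of_nonneg_right ?_ (by positivity))
      rw [two_mul ((1 / (G : ℝ)) ^ (34 * j))]
      exact add_le_add hnum1 hnum2
    rw [hpairs] at hE'
    push_cast at hE'
    have hnj : (0 : ℝ) < (1 / (G : ℝ)) ^ (2 * j) := by positivity
    simp only [hrj, forall_const]
    rw [hJL]
    refine le_trans (markov
      (fun b : Fin 1 → Alt n => (Nat.card {w : Fin (64 * L) → K × (Fin 1 × Bool) //
        2 * F ≤ nfix (bwd g (cb b) w)} : ℝ)) (fun b => Nat.cast_nonneg _)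
      ((1 / (G : ℝ)) ^ (2 * j) * (Fintype.card (K × (Fin 1 × Bool)) : ℝ) ^ (64 * L))
      (2 * (1 / (G : ℝ)) ^ (32 * j) * (Fintype.card (Alt n) : ℝ) ^ 1) (by positivity) ?_) ?_
    · refine le_trans hE' (le_of_eq ?_)
      have e : (1 / (G : ℝ)) ^ (34 * j) = (1 / (G : ℝ)) ^ (32 * j) * (1 / (G : ℝ)) ^ (2 * j) := by
        rw [← pow_add]
        congr 1
        ring
      rw [e]
      ring
    · apply mul_le_mul_of_nonneg_right _ (by positivity)
      apply mul_le_mul_of_nonneg_left _ (by norm_num)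
      apply pow_le_pow_of_le_one he0.le he1
      omega
  -- union
  have hU := union_bound' (X := Fin 1 → Alt n)
    (fun j b => r ≤ j → (Nat.card {w : Fin (2 * LL r j) → K × (Fin 1 × Bool) //
        2 * F ≤ nfix (bwd g (cb b) w)} : ℝ) ≤
      (1 / (G : ℝ)) ^ (2 * j) * (Fintype.card (K × (Fin 1 × Bool)) : ℝ) ^ (2 * LL r j))
    (r * G ^ 8) _ hlevel (fun b => ¬ GoodH G r g (cb b)) (by
      intro b hb
      unfold GoodH at hb
      push Not at hb
      obtain ⟨j, h1, h2, h3⟩ := hb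
      rw [← hFd] at h3
      refine ⟨j, hr.trans h1, h2, fun h => ?_⟩
      exact absurd (h h1) (not_le.2 h3))
  refine le_trans hU ?_
  -- `n ≤ G ^ r`
  have hnr : (n : ℝ) ≤ (G : ℝ) ^ r := by
    calc (n : ℝ) = Real.exp (Real.log n) := (Real.exp_log hn0).symm
      _ ≤ Real.exp r := Real.exp_le_exp.2 hlog
      _ = Real.exp 1 ^ r := by rw [← Real.exp_nat_mul, mul_one]
      _ ≤ (G : ℝ) ^ r := by
        apply pow_le_pow_left₀ (Real.exp_pos 1).le
        have := Real.exp_one_lt_d9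
        linarith
  have hrG : (r : ℝ) ≤ (G : ℝ) ^ r := by
    have h1 : r < 2 ^ r := Nat.lt_two_pow_self
    have h2 : (r : ℝ) ≤ 2 ^ r := by exact_mod_cast h1.le
    refine h2.trans (pow_le_pow_left₀ (by norm_num) (by linarith) r)
  have hfin : ((r * G ^ 8 : ℕ) : ℝ) * (2 * (1 / (G : ℝ)) ^ (32 * r)) ≤ 1 / (n : ℝ) := by
    have h1 : 1 / (G : ℝ) ^ r ≤ 1 / (n : ℝ) := one_div_le_one_div_of_le hn0 hnr
    refine le_trans ?_ h1
    push_cast
    rw [one_div_pow, le_div_iff₀ (by positivity)]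
    have h2 : (r : ℝ) * (G : ℝ) ^ 8 * (2 * (1 / (G : ℝ) ^ (32 * r))) * (G : ℝ) ^ r =
        (2 * r * (G : ℝ) ^ 8 * (G : ℝ) ^ r) / (G : ℝ) ^ (32 * r) := by
      field_simp
    rw [h2, div_le_one (by positivity)]
    calc 2 * r * (G : ℝ) ^ 8 * (G : ℝ) ^ r ≤
        (G : ℝ) * (G : ℝ) ^ r * (G : ℝ) ^ 8 * (G : ℝ) ^ r := by
          gcongr
          linarith
      _ = (G : ℝ) ^ (9 + 2 * r) := by ring
      _ ≤ (G : ℝ) ^ (32 * r) := pow_le_pow_right₀ hG1 (by omega)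
  calc ((r * G ^ 8 : ℕ) : ℝ) * (2 * (1 / (G : ℝ)) ^ (32 * r) * (Fintype.card (Alt n) : ℝ) ^ 1) =
      ((r * G ^ 8 : ℕ) : ℝ) * (2 * (1 / (G : ℝ)) ^ (32 * r)) *
        (Fintype.card (Alt n) : ℝ) ^ 1 := by ring
    _ ≤ 1 / (n : ℝ) * (Fintype.card (Alt n) : ℝ) ^ 1 := by gcongr

end LL14
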